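import Mathlib
import Pool.Agent.Run7.h422.PP.N4

/-!
# `N*(T, a)` under the de Bruijn-Newman flow: the time scale `1 / log² T`

`H_t(z) = ∫_0^∞ e^{t u²} Φ(u) cos (z u) du` is the de Bruijn-Newman family: `H_0(z)` is the Riemann
function `ξ(1/2 + i z/2) / 8`, and the heights of the zeros of zeta are the numbers `Re z / 2`,
`H_0(z) = 0`. Montgomery's conjecture (the question of `MP_f58427_nt`) says
that the number `N*(T, a)` of pairs with `0 < γ - γ' ≤ 2 π a / log T` is asymptotically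
`∫_0^a (1 - (sin π u / (π u))²) du` times the number of zeros. We prove, unconditionally, that the
correct law for `N*(T, a)` changes exactly at the time scale `1 / log² T`.

(1) Let `t = t(T)` with `t(T) log² T → 0`. Let `Ψ` be a continuous function on `(0, ∞)` with limit `0` at
`0`. The law `N*(T, a) ~ Ψ(a) T log T / (2 π)` holds for zeta, and almost all zeros of zeta have different
heights, if and only if the same is true for `H_{t(T)}`. In particular Montgomery's law (the question)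
follows from the same law for the zeros of `H_{t(T)}`, if almost all of them have different heights, and
conversely. All distances, however small, are taken into account here (unlike in
`MP_8958e8_nt.HeatFlowThreshold`, which treats the distances in intervals `[α, β]`, `α > 0`).

(2) Let `t log T ≤ A` (so that the heights up to `T` are in the range where the Riemann hypothesis for `H_t` is
not known). Let `0 ≤ α < β`, `β` not an integer and `α` zero or not an integer. If `t log² T ≥ τ₀`, with a constant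
`τ₀` depending only on `A, α, β, ε`, and `T` is large, then the number of pairs with normalised
difference in `(α, β]` is the number of integers in `(α, β]` times the number `N` of
zeros, up to an error `ε N`, and there are at most `ε N` pairs of zeros with the same height. In particular
`N*(T, a) = (⌊a⌋ + o(1)) N` for every `a > 0` which is not an integer, when `t log² T → ∞`: the
pair correlation measure is the sum of the unit masses at `1, 2, 3, ...`. The same holds for the pairs of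
real simple zeros of `H_t` alone.

(3) So no law `N*(T, a) ~ Ψ(a) T log T / (2 π)` with `Ψ` continuous holds for the zeros of `H_t`, `t = τ / log² T`,
when the constant `τ` is large; in particular Montgomery's law fails there. Conversely, if such a law holds for
zeta, it holds up to `ε` at all times `t ≤ δ / log² T`, with `δ > 0` depending on `ε` and `a`. The critical time is a
constant multiple of `1 / log² T`.

The proof of (1) uses the starting theorem `Pool.Agent.R838.ST.cmp`, that of (2) the starting theorems on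
regular zeros `Pool.Agent.R838.CR.fin_irr`, on real simple zeros `Pool.Agent.R838.IS.ess_large` and, for the
pairs with an exceptional zero, on moments of the number of zeros in short windows
`Pool.Agent.R838.ST.midw` (see the starting result `MP_cd509c_nt.HeatFlowSpacing` for the authors).
-/

set_option autoImplicit false

open Filter Topology

namespace Pool.Agent.Results.MP_f58427_nt.HeatFlowLattice

/-- The kernel `Φ(u) = ∑_{n ≥ 1} (2 π² n⁴ e^{9u} - 3 π n² e^{5u}) exp (-π n² e^{4u})`. -/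
noncomputable def Phi (u : ℝ) : ℝ := ∑' n : ℕ,
  (2 * Real.pi ^ 2 * ((n : ℝ) + 1) ^ 4 * Real.exp (9 * u) -
    3 * Real.pi * ((n : ℝ) + 1) ^ 2 * Real.exp (5 * u)) *
    Real.exp (-(Real.pi * ((n : ℝ) + 1) ^ 2 * Real.exp (4 * u)))

/-- The de Bruijn-Newman family `H_t(z) = ∫_0^∞ e^{t u²} Φ(u) cos (z u) du`. -/
noncomputable def H (t : ℝ) (z : ℂ) : ℂ :=
  ∫ u in Set.Ioi (0 : ℝ), ((Real.exp (t * u ^ 2) * Phi u : ℝ) : ℂ) * Complex.cos (z * u)

/-- The nontrivial zeros of zeta with multiplicity: `(ρ, i)`, `i` less than the multiplicity of `ρ`. -/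
def ZetaZeros : Set (ℂ × ℕ) :=
  {p | 0 < p.1.re ∧ p.1.re < 1 ∧ p.2 < analyticOrderNatAt riemannZeta p.1}

/-- `N*(T, a)`, the number of ordered pairs of nontrivial zeros of zeta with ordinates `0 < γ ≤ T` and
`0 < γ - γ' ≤ 2 π a / log T`. -/
noncomputable def Nstar (T a : ℝ) : ℝ :=
  (({x | x.1 ∈ ZetaZeros ∧ x.2 ∈ ZetaZeros ∧ (0 < x.1.1.im ∧ x.1.1.im ≤ T) ∧
    0 < x.1.1.im - x.2.1.im ∧ x.1.1.im - x.2.1.im ≤ 2 * Real.pi * a / Real.log T} :
    Set ((ℂ × ℕ) × (ℂ × ℕ))).ncard : ℝ)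

/-- The number of ordered pairs of different nontrivial zeros (with multiplicity) of zeta with the same
ordinate in `(0, T]`. -/
noncomputable def sameZeta (T : ℝ) : ℝ :=
  (({x | x.1 ∈ {p | p ∈ ZetaZeros ∧ 0 < p.1.im ∧ p.1.im ≤ T} ∧
    x.2 ∈ {p | p ∈ ZetaZeros ∧ 0 < p.1.im ∧ p.1.im ≤ T} ∧ x.1 ≠ x.2 ∧ x.1.1.im = x.2.1.im} :
    Set ((ℂ × ℕ) × (ℂ × ℕ))).ncard : ℝ)

/-- The zeros of `H_t` with multiplicity and with heights `γ = Re z / 2` in `(0, T]`: the pairs
`(z, i)`, `i` less than the multiplicity of `z`. -/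
def Zeros (t T : ℝ) : Set (ℂ × ℕ) :=
  {p | p.2 < analyticOrderNatAt (H t) p.1 ∧ 0 < p.1.re / 2 ∧ p.1.re / 2 ≤ T}

/-- The ordered pairs of zeros of `H_t` with heights `γ`, `γ'` in `(0, T]` and normalised difference
`(γ - γ') log T / (2 π)` in `(α, β]`. -/
def Pairs (t T α β : ℝ) : Set ((ℂ × ℕ) × (ℂ × ℕ)) :=
  {x | x.1 ∈ Zeros t T ∧ x.2 ∈ Zeros t T ∧
    α < (x.1.1.re / 2 - x.2.1.re / 2) * (Real.log T / (2 * Real.pi)) ∧
    (x.1.1.re / 2 - x.2.1.re / 2) * (Real.log T / (2 * Real.pi)) ≤ β}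

/-- `N*(T, a)` for the zeros of `H_t`. -/
noncomputable def NstarH (t T a : ℝ) : ℝ := ((Pairs t T 0 a).ncard : ℝ)

/-- The number of ordered pairs of different zeros (with multiplicity) of `H_t` with the same
height in `(0, T]`. -/
noncomputable def sameH (t T : ℝ) : ℝ :=
  (({x | x.1 ∈ Zeros t T ∧ x.2 ∈ Zeros t T ∧ x.1 ≠ x.2 ∧ x.1.1.re / 2 = x.2.1.re / 2} :
    Set ((ℂ × ℕ) × (ℂ × ℕ))).ncard : ℝ)

/-- Real simple zeros of `H_t`. -/
def RealSimple (t : ℝ) : Set (ℂ × ℕ) := {p | p.1.im = 0 ∧ analyticOrderNatAt (H t) p.1 = 1}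

/-- The law `N(T, a) ~ Ψ(a) T log T / (2 π)` for all `a > 0`, and `E(T) = o(T log T)`. -/
def Law (N : ℝ → ℝ → ℝ) (E : ℝ → ℝ) (Ψ : ℝ → ℝ) : Prop :=
  (∀ a : ℝ, 0 < a → Tendsto (fun T : ℝ => N T a / (T * Real.log T / (2 * Real.pi))) atTop (𝓝 (Ψ a))) ∧
  Tendsto (fun T : ℝ => E T / (T * Real.log T / (2 * Real.pi))) atTop (𝓝 0)

/-- `Ψ` is continuous on `(0, ∞)` with limit `0` at `0`. -/
def ContinuousLaw (Ψ : ℝ → ℝ) : Prop := ContinuousOn Ψ (Set.Ioi 0) ∧ Tendsto Ψ (𝓝[>] 0) (𝓝 0)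

/-- Montgomery's law `∫_0^a (1 - (sin π u / (π u))²) du`. -/
noncomputable def montgomery (a : ℝ) : ℝ :=
  ∫ u in (0 : ℝ)..a, (1 - (Real.sin (Real.pi * u) / (Real.pi * u)) ^ 2)

/-- **Main theorem.** (1) Let `t(T) ≥ 0` and `t(T) log² T → 0`. For every `Ψ` continuous on `(0, ∞)` with
limit `0` at `0` the law `N*(T, a) ~ Ψ(a) T log T / (2 π)` for all `a > 0`, together with `o(T log T)` pairs
with the same height, holds for the zeros of zeta if and only if it holds for the zeros of `H_{t(T)}`; in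
particular this is true for Montgomery's law. If it holds for zeta, then for all `a`, `ε > 0` there are
`δ > 0`, `T₀` such that `|N*(T, a) / (T log T / (2 π)) - Ψ(a)| ≤ ε` for the zeros of `H_t` if `T ≥ T₀` and
`0 ≤ t log² T ≤ δ`. (2) For all `A > 0` there is `c > 0` such that for large `T` and `0 ≤ t ≤ A / log T` the number
`N` of zeros of `H_t` with heights in `(0, T]` is finite and at least `c T log T`. For all
`0 ≤ α < β` such that `β` is not an integer and `α` is zero or not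
an integer, and all `ε > 0`, there are `τ₀`, `T₀` such that for `T ≥ T₀`, `τ₀ / log² T ≤ t ≤ A / log T` both the
number of pairs of zeros and the number of pairs of real simple zeros with normalised
difference in `(α, β]` are `⌊β⌋ - ⌊α⌋`, the number of integers in
`(α, β]`, times `N`, up to an error at most `ε N`, and at most `ε N` pairs of zeros have the same height. (3) For every
`Ψ` as in (1), in particular for Montgomery's law, there is `τ₀` such that the law
`N*(T, a) ~ Ψ(a) T log T / (2 π)` for all `a > 0` is false for the zeros of `H_{t(T)}` for every function `t(T)` with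
`τ₀ / log² T ≤ t(T) ≤ A / log T` for large `T`. -/
theorem result :
    (∀ t : ℝ → ℝ, (∀ T, 0 ≤ t T) → Tendsto (fun T => t T * Real.log T ^ 2) atTop (𝓝 0) →
      (∀ Ψ : ℝ → ℝ, ContinuousLaw Ψ → (Law Nstar sameZeta Ψ ↔
        Law (fun T => NstarH (t T) T) (fun T => sameH (t T) T) Ψ)) ∧
      (Law Nstar sameZeta montgomery ↔
        Law (fun T => NstarH (t T) T) (fun T => sameH (t T) T) montgomery)) ∧
    (∀ Ψ : ℝ → ℝ, ContinuousLaw Ψ → Law Nstar sameZeta Ψ → ∀ a ε : ℝ, 0 < a → 0 < ε →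
      ∃ δ T₀ : ℝ, 0 < δ ∧ 2 ≤ T₀ ∧ ∀ T t : ℝ, T₀ ≤ T → 0 ≤ t → t * Real.log T ^ 2 ≤ δ →
        |NstarH t T a / (T * Real.log T / (2 * Real.pi)) - Ψ a| ≤ ε) ∧
    (∀ A : ℝ, 0 < A →
      (∃ c T₀ : ℝ, 0 < c ∧ 2 ≤ T₀ ∧ ∀ T t : ℝ, T₀ ≤ T → 0 ≤ t → t * Real.log T ≤ A →
        (Zeros t T).Finite ∧ c * (T * Real.log T) ≤ ((Zeros t T).ncard : ℝ)) ∧
      (∀ α β ε : ℝ, 0 ≤ α → α < β → (α = 0 ∨ ∀ k : ℕ, α ≠ k) → (∀ k : ℕ, β ≠ k) → 0 < ε →
        ∃ τ₀ T₀ : ℝ, 0 < τ₀ ∧ 2 ≤ T₀ ∧ ∀ T t : ℝ, T₀ ≤ T → τ₀ ≤ t * Real.log T ^ 2 → t * Real.log T ≤ A →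
          |((Pairs t T α β).ncard : ℝ) - ((⌊β⌋₊ : ℝ) - ⌊α⌋₊) * ((Zeros t T).ncard : ℝ)| ≤
            ε * ((Zeros t T).ncard : ℝ) ∧
          |(({x | x ∈ Pairs t T α β ∧ x.1 ∈ RealSimple t ∧ x.2 ∈ RealSimple t} :
            Set ((ℂ × ℕ) × (ℂ × ℕ))).ncard : ℝ) - ((⌊β⌋₊ : ℝ) - ⌊α⌋₊) * ((Zeros t T).ncard : ℝ)| ≤
            ε * ((Zeros t T).ncard : ℝ) ∧
          sameH t T ≤ ε * ((Zeros t T).ncard : ℝ)) ∧
      (∀ Ψ : ℝ → ℝ, ContinuousLaw Ψ → ∃ τ₀ : ℝ, 0 < τ₀ ∧ ∀ t : ℝ → ℝ,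
        (∀ᶠ T in atTop, τ₀ ≤ t T * Real.log T ^ 2 ∧ t T * Real.log T ≤ A) →
        ¬ ∀ a : ℝ, 0 < a →
          Tendsto (fun T => NstarH (t T) T a / (T * Real.log T / (2 * Real.pi))) atTop (𝓝 (Ψ a))) ∧
      (∃ τ₀ : ℝ, 0 < τ₀ ∧ ∀ t : ℝ → ℝ,
        (∀ᶠ T in atTop, τ₀ ≤ t T * Real.log T ^ 2 ∧ t T * Real.log T ≤ A) →
        ¬ ∀ a : ℝ, 0 < a → Tendsto (fun T => NstarH (t T) T a / (T * Real.log T / (2 * Real.pi))) atTop
          (𝓝 (montgomery a)))) := by
  have iff1 : ∀ t : ℝ → ℝ, (∀ T, 0 ≤ t T) → Tendsto (fun T => t T * Real.log T ^ 2) atTop (𝓝 0) →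
      ∀ Ψ : ℝ → ℝ, ContinuousLaw Ψ → (Law Nstar sameZeta Ψ ↔
        Law (fun T => NstarH (t T) T) (fun T => sameH (t T) T) Ψ) := by
    intro t ht h2 Ψ hΨ
    have h3 := Run7.h422.PP.star_iff ht h2 (Ψ := Ψ) hΨ
    have h4 : Law Nstar sameZeta Ψ ↔ Run7.h422.PP.StarLaw Run7.h422.PP.SZ Run7.h422.PP.EZ Ψ := by
      constructor
      · rintro ⟨h5, h6⟩
        exact ⟨fun a ha => Run7.h422.PP.nst_iff.1 (h5 a ha), h6⟩
      · rintro ⟨h5, h6⟩
        exact ⟨fun a ha => Run7.h422.PP.nst_iff.2 (h5 a ha), h6⟩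
    exact h4.trans h3
  refine ⟨fun t ht h2 => ⟨iff1 t ht h2, iff1 t ht h2 _ Run7.h422.PP.mo_star⟩, ?_, ?_⟩
  · intro Ψ hΨ hlaw a ε ha hε
    refine Run7.h422.PP.soft_small fun t ht h2 => ?_
    have h3 := ((iff1 t ht h2 Ψ hΨ).1 hlaw).1 a ha
    rw [Metric.tendsto_nhds] at h3
    filter_upwards [h3 ε hε] with T h4
    rw [Real.dist_eq] at h4
    exact h4.le
  intro A hA
  have hcnt := Run7.h422.PP.nh_geU hA
  have hlat : ∀ α β ε : ℝ, 0 ≤ α → α < β → (α = 0 ∨ ∀ k : ℕ, α ≠ k) → (∀ k : ℕ, β ≠ k) → 0 < ε →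
      ∃ τ₀ T₀ : ℝ, 0 < τ₀ ∧ 2 ≤ T₀ ∧ ∀ T t : ℝ, T₀ ≤ T → τ₀ ≤ t * Real.log T ^ 2 → t * Real.log T ≤ A →
        |((Pairs t T α β).ncard : ℝ) - ((⌊β⌋₊ : ℝ) - ⌊α⌋₊) * ((Zeros t T).ncard : ℝ)| ≤
          ε * ((Zeros t T).ncard : ℝ) ∧
        |(({x | x ∈ Pairs t T α β ∧ x.1 ∈ RealSimple t ∧ x.2 ∈ RealSimple t} :
          Set ((ℂ × ℕ) × (ℂ × ℕ))).ncard : ℝ) - ((⌊β⌋₊ : ℝ) - ⌊α⌋₊) * ((Zeros t T).ncard : ℝ)| ≤
          ε * ((Zeros t T).ncard : ℝ) ∧
        sameH t T ≤ ε * ((Zeros t T).ncard : ℝ) := by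
    intro α β ε h0 hαβ hα hβ hε
    refine Run7.h422.PP.soft_big hA fun t ht hA' => ?_
    have ht0 : ∀ᶠ T in atTop, 0 < t T := by
      filter_upwards [ht.eventually_gt_atTop 0, eventually_gt_atTop (1 : ℝ)] with T h2 h3
      have h5 : 0 < Real.log T ^ 2 := by have := Real.log_pos h3; positivity
      exact (pos_iff_pos_of_mul_pos h2).2 h5
    obtain ⟨c, T1, hc, hT1, hge⟩ := hcnt
    have hN : ∀ᶠ T in atTop, 0 < ((Zeros (t T) T).ncard : ℝ) := by
      filter_upwards [hA', ht0, eventually_ge_atTop T1] with T h1 h2 h3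
      refine lt_of_lt_of_le ?_ (hge T (t T) h3 h2.le h1)
      have hT : 1 < T := by linarith
      have := Real.log_pos hT
      positivity
    have h1 := Run7.h422.PP.near_of hε hN (Run7.h422.PP.ht_latticeS hA hA' ht h0 hαβ hα hβ)
    have h2 := Run7.h422.PP.near_of hε hN (Run7.h422.PP.ht_latticeR hA hA' ht h0 hαβ hα hβ)
    have h3 := Run7.h422.PP.near_of hε hN (Run7.h422.PP.eh_small hA hA' ht)
    filter_upwards [h1, h2, h3] with T q1 q2 q3
    refine ⟨q1, q2, ?_⟩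
    rw [zero_mul, sub_zero] at q3
    exact (le_abs_self _).trans q3
  have hfail : ∀ Ψ : ℝ → ℝ, ContinuousLaw Ψ → ∃ τ₀ : ℝ, 0 < τ₀ ∧ ∀ t : ℝ → ℝ,
      (∀ᶠ T in atTop, τ₀ ≤ t T * Real.log T ^ 2 ∧ t T * Real.log T ≤ A) →
      ¬ ∀ a : ℝ, 0 < a →
        Tendsto (fun T => NstarH (t T) T a / (T * Real.log T / (2 * Real.pi))) atTop (𝓝 (Ψ a)) := by
    intro Ψ hΨ
    obtain ⟨c, T1, hc, hT1, hge⟩ := hcnt
    have hk : 0 < c * (2 * Real.pi) := by have := Real.pi_pos; positivity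
    have hc1 : ContinuousAt Ψ 1 := hΨ.1.continuousAt (Ioi_mem_nhds one_pos)
    obtain ⟨θ, hθ, hθ2⟩ := Metric.continuousAt_iff.1 hc1 (c * (2 * Real.pi) / 8) (by positivity)
    set η : ℝ := min (θ / 2) (1 / 2) with hη
    have hη0 : 0 < η := lt_min (by positivity) (by norm_num)
    have hη1 : η ≤ 1 / 2 := min_le_right _ _
    have hη2 : η < θ := lt_of_le_of_lt (min_le_left _ _) (by linarith)
    have hnat1 : ∀ k : ℕ, (1 - η : ℝ) ≠ k := by
      intro k hk
      have h1 : (k : ℝ) < 1 := by linarith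
      have h2 : (0 : ℝ) < k := by linarith
      have h3 : k < 1 := by exact_mod_cast h1
      have h4 : 0 < k := by exact_mod_cast h2
      omega
    have hnat2 : ∀ k : ℕ, (1 + η : ℝ) ≠ k := by
      intro k hk
      have h1 : (k : ℝ) < 2 := by linarith
      have h2 : (1 : ℝ) < k := by linarith
      have h3 : k < 2 := by exact_mod_cast h1
      have h4 : 1 < k := by exact_mod_cast h2
      omega
    have hf1 : ⌊(1 - η : ℝ)⌋₊ = 0 := Nat.floor_eq_zero.2 (by linarith)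
    have hf2 : ⌊(1 + η : ℝ)⌋₊ = 1 := by
      rw [Nat.floor_eq_iff (by linarith)]
      constructor
      · push_cast; linarith
      · push_cast; linarith
    obtain ⟨τ1, S1, hτ1, hS1, hb1⟩ := hlat 0 (1 - η) (1 / 4) le_rfl (by linarith) (Or.inl rfl) hnat1 (by norm_num)
    obtain ⟨τ2, S2, hτ2, hS2, hb2⟩ := hlat 0 (1 + η) (1 / 4) le_rfl (by linarith) (Or.inl rfl) hnat2 (by norm_num)
    refine ⟨max τ1 τ2, lt_max_of_lt_left hτ1, fun t ht hall => ?_⟩
    have hp := hall (1 - η) (by linarith)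
    have hq := hall (1 + η) (by linarith)
    have hX : ∀ᶠ T : ℝ in atTop, 0 < T * Real.log T / (2 * Real.pi) := by
      filter_upwards [eventually_gt_atTop (1 : ℝ)] with T hT
      have h1 := Real.log_pos hT
      have h2 := Real.pi_pos
      positivity
    refine Run7.h422.PP.fail_abs (n := fun T => ((Zeros (t T) T).ncard : ℝ) / (T * Real.log T / (2 * Real.pi)))
      hk ?_ ?_ ?_ hp hq ?_
    · filter_upwards [ht, eventually_ge_atTop S1, hX] with T t1 t2 t3
      have h1 := (hb1 T (t T) t2 ((le_max_left _ _).trans t1.1) t1.2).1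
      rw [hf1, Nat.floor_zero, sub_self, zero_mul, sub_zero] at h1
      have h2 := (le_abs_self _).trans h1
      have e : 1 / 4 * (((Zeros (t T) T).ncard : ℝ) / (T * Real.log T / (2 * Real.pi))) =
          1 / 4 * ((Zeros (t T) T).ncard : ℝ) / (T * Real.log T / (2 * Real.pi)) := by ring
      rw [e]
      exact div_le_div_of_nonneg_right h2 t3.le
    · filter_upwards [ht, eventually_ge_atTop S2, hX] with T t1 t2 t3
      have h1 := (hb2 T (t T) t2 ((le_max_right _ _).trans t1.1) t1.2).1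
      rw [hf2, Nat.floor_zero, Nat.cast_one, Nat.cast_zero, sub_zero, one_mul] at h1
      have h2 := (abs_le.1 h1).1
      have e : (1 - 1 / 4) * (((Zeros (t T) T).ncard : ℝ) / (T * Real.log T / (2 * Real.pi))) =
          (1 - 1 / 4) * ((Zeros (t T) T).ncard : ℝ) / (T * Real.log T / (2 * Real.pi)) := by ring
      rw [e]
      refine div_le_div_of_nonneg_right ?_ t3.le
      have h3 : NstarH (t T) T (1 + η) = ((Pairs (t T) T 0 (1 + η)).ncard : ℝ) := rfl
      rw [h3]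
      linarith
    · filter_upwards [ht, eventually_ge_atTop T1, hX, eventually_gt_atTop (1 : ℝ)] with T t1 t2 t3 t4
      have hL := Real.log_pos t4
      have ht0 : 0 ≤ t T := by
        have h5 : 0 < t T * Real.log T ^ 2 := lt_of_lt_of_le (lt_max_of_lt_left hτ1) t1.1
        exact ((pos_iff_pos_of_mul_pos h5).2 (by positivity)).le
      have h1 := hge T (t T) t2 ht0 t1.2
      rw [le_div_iff₀ t3]
      have hpi := Real.pi_pos
      have e : c * (2 * Real.pi) * (T * Real.log T / (2 * Real.pi)) = c * (T * Real.log T) := by field_simp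
      rw [e]
      exact h1
    · have h1 := hθ2 (x := 1 - η) (by rw [Real.dist_eq, abs_lt]; constructor <;> linarith)
      have h2 := hθ2 (x := 1 + η) (by rw [Real.dist_eq, abs_lt]; constructor <;> linarith)
      rw [Real.dist_eq, abs_lt] at h1 h2
      rw [abs_lt]
      constructor <;> linarith [h1.1, h1.2, h2.1, h2.2]
  refine ⟨?_, hlat, hfail, hfail _ Run7.h422.PP.mo_star⟩
  obtain ⟨c, T1, hc, hT1, hge⟩ := hcnt
  exact ⟨c, T1, hc, hT1, fun T t h1 h2 h3 => ⟨Run7.h422.PP.nh_fin h2 T, hge T t h1 h2 h3⟩⟩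

end Pool.Agent.Results.MP_f58427_nt.HeatFlowLattice
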