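import Pool.Agent.Run7.h311.WI.Fin

/-!
# Isolated simple zeros have a share of 67.25 % in every weight `|R|²`

Unconditionally, for every `ε > 0` there are `d, δ > 0` such that for all large `T`, all intervals
`(T, T + K]` with `T ^ (1 - δ) ≤ K ≤ T / 2` and every Dirichlet polynomial
`R(t) = ∑ r(n) n ^ (- i t)` over integers `n ≤ T ^ δ` with arbitrary complex coefficients: the sum
of `|R(γ)|²` over all nontrivial zeros `β + iγ` of zeta with `T < γ ≤ T + K`, counted with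
multiplicity, is between `1 - ε` and `1 + ε` times `(K / 2π) log T ∑ |r(n)|²`, and at least
`0.6725 - ε` of it comes from zeros that are simple, lie on the critical line and have distance at
least `d / log γ` from every other zero in the critical strip, on or off the line. So pairs of
zeros on a small multiple of the mean spacing never dominate, whatever the weight.

The proof: the Montgomery-Taylor inequality weighted by `|R|²` is kept with its pair terms; close
pairs contribute nearly as much as double zeros (`Pool.Agent.Run7.h311.WI`).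
-/

open Filter Topology Complex

namespace Pool.Agent.Results.MP_f58427_nt.IsolatedZerosEveryWeight

/-- the zeros of zeta in the open critical strip with ordinates in `(T₁, T₂]` -/
def zeros (T₁ T₂ : ℝ) : Set ℂ :=
  {s : ℂ | riemannZeta s = 0 ∧ 0 < s.re ∧ s.re < 1 ∧ T₁ < s.im ∧ s.im ≤ T₂}

/-- the multiplicity of a zero of zeta -/
noncomputable def mult (s : ℂ) : ℕ := analyticOrderNatAt riemannZeta s

/-- the zeros in `zeros T₁ T₂` that are simple, lie on the critical line and have distance at least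
`d / log (Im s)` from all other zeros of zeta in the open critical strip -/
def isolated (d T₁ T₂ : ℝ) : Set ℂ :=
  {s : ℂ | s ∈ zeros T₁ T₂ ∧ s.re = 1 / 2 ∧ mult s = 1 ∧
    ∀ s' : ℂ, riemannZeta s' = 0 → 0 < s'.re → s'.re < 1 → s' ≠ s →
      d / Real.log s.im ≤ ‖s' - s‖}

/-- the Dirichlet polynomial `∑ r(n) n ^ (- i t)`, `n` in `S` -/
noncomputable def R (S : Finset ℕ) (r : ℕ → ℂ) (t : ℝ) : ℂ :=
  ∑ n ∈ S, r n * (n : ℂ) ^ (-(I * t))

/-- the main term `(K / 2π) log T ∑ |r(n)|²` -/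
noncomputable def main (T K : ℝ) (S : Finset ℕ) (r : ℕ → ℂ) : ℝ :=
  K / (2 * Real.pi) * Real.log T * ∑ n ∈ S, ‖r n‖ ^ 2

lemma zeros_eq {T₁ T₂ : ℝ} (h : 1 ≤ T₁) :
    zeros T₁ T₂ = (H370.Zf riemannZeta T₁ T₂ : Set ℂ) := by
  ext s
  rw [Finset.mem_coe, H370.mem_Zf H370.good_zeta h]
  unfold zeros H370.zset
  simp only [Set.mem_ofPred_eq]
  tauto

/-- the sets of zeros are finite -/
theorem zeros_finite (T₁ T₂ : ℝ) (h : 1 ≤ T₁) : (zeros T₁ T₂).Finite := by
  rw [zeros_eq h]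
  exact Finset.finite_toSet _

theorem isolated_finite (d T₁ T₂ : ℝ) (h : 1 ≤ T₁) : (isolated d T₁ T₂).Finite :=
  (zeros_finite T₁ T₂ h).subset fun _ hs => hs.1

lemma R_eq {S : Finset ℕ} {N : ℝ} (hS : ∀ n ∈ S, 1 ≤ n ∧ (n : ℝ) ≤ N) (r : ℕ → ℂ) (t : ℝ) :
    R S r t = N802.RP S r t := by
  unfold R N802.RP N802.TP
  refine Finset.sum_congr rfl fun n hn => ?_
  have hn0 : (n : ℂ) ≠ 0 := by
    have := (hS n hn).1
    exact_mod_cast (by omega : n ≠ 0)
  congr 1
  unfold N802.mn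
  rw [Complex.cpow_def_of_ne_zero hn0, ← Complex.natCast_log]
  congr 1
  rw [Nat.cast_one, Real.log_one]
  push_cast
  ring

open Classical in
/-- the isolated zeros as a finite set -/
noncomputable def sc (d T₁ T₂ : ℝ) : Finset ℂ :=
  (H370.Zf riemannZeta T₁ T₂).filter (fun s => s.re = 1 / 2 ∧ H370.mult riemannZeta s = 1 ∧
    ∀ s' : ℂ, riemannZeta s' = 0 → 0 < s'.re → s'.re < 1 → s' ≠ s →
      d / Real.log s.im ≤ ‖s' - s‖)

lemma isolated_eq {d T₁ T₂ : ℝ} (h : 1 ≤ T₁) : isolated d T₁ T₂ = (sc d T₁ T₂ : Set ℂ) := by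
  classical
  ext s
  unfold isolated sc
  rw [Finset.mem_coe, Finset.mem_filter, zeros_eq h]
  exact Iff.rfl

theorem result : ∀ ε : ℝ, 0 < ε → ∃ d δ T₀ : ℝ, 0 < d ∧ 0 < δ ∧ ∀ T : ℝ, T₀ ≤ T →
    ∀ K : ℝ, T ^ (1 - δ) ≤ K → K ≤ T / 2 →
    ∀ S : Finset ℕ, (∀ n ∈ S, 1 ≤ n ∧ (n : ℝ) ≤ T ^ δ) → ∀ r : ℕ → ℂ,
    (0.6725 - ε) * main T K S r ≤ ∑ᶠ s ∈ isolated d T (T + K), ‖R S r s.im‖ ^ 2 ∧
    |∑ᶠ s ∈ zeros T (T + K), (mult s : ℝ) * ‖R S r s.im‖ ^ 2 - main T K S r| ≤
      ε * main T K S r := by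
  classical
  intro ε hε
  obtain ⟨e, he0, he1, heε⟩ : ∃ e : ℝ, 0 < e ∧ e ≤ 1 / 10 ∧ 2 * e ≤ ε :=
    ⟨min (ε / 2) (1 / 10), lt_min (by linarith) (by norm_num), min_le_right _ _,
      by linarith [min_le_left (ε / 2) (1 / 10)]⟩
  obtain ⟨d, hd0, -, hd⟩ := Run7.h311.WI.isoD he0 he1
  obtain ⟨δ, T0, hδ, hT0, h⟩ := hd e he0 (by linarith)
  refine ⟨d, δ, T0, hd0, hδ, fun T hT K hK1 hK2 S hS r => ?_⟩
  have hT1 : 1 ≤ T := by linarith
  obtain ⟨h1, h2, h3⟩ := h T hT K hK1 hK2 S hS r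
  have hK0 : 0 ≤ K := le_trans (by positivity) hK1
  have hm : 0 ≤ main T K S r := by
    unfold main
    have := Real.log_nonneg hT1
    have := Real.pi_pos
    positivity
  have hm' : K / (2 * Real.pi) * Real.log T * N802.w1 S r = main T K S r := rfl
  rw [hm'] at h1 h2 h3
  have e1 : ∑ᶠ s ∈ isolated d T (T + K), ‖R S r s.im‖ ^ 2 =
      ∑ s ∈ H370.Zf riemannZeta T (T + K), Run7.h311.WI.cI riemannZeta d s *
        ‖N802.RP S r s.im‖ ^ 2 := by
    rw [isolated_eq hT1, finsum_mem_coe_finset]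
    unfold sc
    rw [Finset.sum_filter]
    refine Finset.sum_congr rfl fun s _ => ?_
    unfold Run7.h311.WI.cI
    split_ifs with hc
    · rw [R_eq hS, one_mul]
    · rw [zero_mul]
  have e2 : ∑ᶠ s ∈ zeros T (T + K), (mult s : ℝ) * ‖R S r s.im‖ ^ 2 =
      ∑ s ∈ H370.Zf riemannZeta T (T + K), (H370.mult riemannZeta s : ℝ) *
        ‖N802.RP S r s.im‖ ^ 2 := by
    rw [zeros_eq hT1, finsum_mem_coe_finset]
    exact Finset.sum_congr rfl fun s _ => by rw [R_eq hS]; rfl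
  have hem : (2 * e) * main T K S r ≤ ε * main T K S r := mul_le_mul_of_nonneg_right heε hm
  have hem0 : 0 ≤ e * main T K S r := by positivity
  rw [e1, e2]
  refine ⟨?_, ?_⟩
  · refine le_trans ?_ h1
    linarith
  · rw [abs_le]
    constructor <;> linarith

end Pool.Agent.Results.MP_f58427_nt.IsolatedZerosEveryWeight
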