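import Pool.Agent.Run7.h911.PQ11

/-!
# Montgomery's pair correlation theorem at every size of zeta (under RH)

The zeros are sorted by the size of the zeta function around them. By Selberg's theorem
`√2 log |ζ(1/2 + it)| / √(log log t)` is asymptotically a standard Gaussian variable. An ordinate `γ`
has size in `(a, b)` when this normalised size lies in `(a, b)` on at least nine tenths of the window
`|t - γ| ≤ 1 / log γ` (at `γ` itself zeta vanishes).

Assume the Riemann hypothesis. For Lipschitz test functions with the cosine transform supported inside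
`(-1, 1)`, the sum over the pairs `(γ, γ')` with `γ` of size in `(a, b)` is asymptotically the Gaussian
measure of `(a, b)` times Montgomery's value for all the pairs. The same holds for the pairs with `γ` of
size in `(a, b)` and `γ'` of size in `(c, d)`, with the Gaussian measure of the intersection. So the pair
correlation in Montgomery's range does not depend on the size of zeta.
-/

set_option autoImplicit false

open MeasureTheory

namespace Pool.Agent.Results.MP_f58427_nt.PairCorrelationAtEverySize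

open Pool.Agent.Results.MP_103a5c_nt.BohrSetPairs (zeros mult N r TestFn mont)

/-- the normalised size of zeta at the height `t` -/
noncomputable def size (t : ℝ) : ℝ :=
  Real.sqrt 2 * (Real.log ‖riemannZeta (1 / 2 + t * Complex.I)‖ / Real.sqrt (Real.log (Real.log t)))

/-- the window of length `2 / log y` centred at `y` -/
noncomputable def window (y : ℝ) : Set ℝ := Set.Icc (y - 1 / Real.log y) (y + 1 / Real.log y)

/-- the ordinates of size in `(a, b)`: the size is in `(a, b)` on nine tenths of the window -/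
def SizeIn (a b : ℝ) : Set ℝ :=
  {y : ℝ | 9 / 10 * (2 / Real.log y) ≤ volume.real {t : ℝ | t ∈ window y ∧ a < size t ∧ size t < b}}

/-- the standard Gaussian measure of the interval `(a, b)` -/
noncomputable def gauss (a b : ℝ) : ℝ := (ProbabilityTheory.gaussianReal 0 1).real (Set.Ioo a b)

open Classical in
/-- the sum of `r((γ - γ') log T / 2π)` over all ordered pairs of nontrivial zeros with ordinates `γ, γ'` in
`(T, 2T]`, counted with multiplicity, `γ = γ'` included, with `γ ∈ P` and `γ' ∈ Q` -/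
noncomputable def pairs (R : ℝ → ℝ) (P Q : Set ℝ) (T : ℝ) : ℝ :=
  ∑ᶠ s ∈ zeros T (2 * T), ∑ᶠ s' ∈ zeros T (2 * T), (mult s : ℝ) * (mult s' : ℝ) *
    (r R ((s.im - s'.im) * Real.log T / (2 * Real.pi)) * (if s.im ∈ P ∧ s'.im ∈ Q then 1 else 0))

open Classical in
lemma pairs_eq {R : ℝ → ℝ} {κ : ℝ} (hR : TestFn R κ) (P Q : Set ℝ) {T : ℝ} (hT : 1 ≤ T) :
    pairs R P Q T = ∑ s ∈ H370.Zf riemannZeta T (2 * T), ∑ s' ∈ H370.Zf riemannZeta T (2 * T),
      (if s.im ∈ P ∧ s'.im ∈ Q then Run7.h911.PQ.pw R T s s' else 0) := by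
  unfold pairs
  rw [Pool.Agent.Results.MP_103a5c_nt.BohrSetPairs.zeros_eq, H370.finsum_Zf H370.good_zeta hT]
  refine Finset.sum_congr rfl fun s _ => ?_
  rw [H370.finsum_Zf H370.good_zeta hT]
  refine Finset.sum_congr rfl fun s' _ => ?_
  rw [Run7.h911.PQ.r_eq hR.cont hR.even]
  have hpi := Real.pi_pos
  have e : 2 * Real.pi * ((s.im - s'.im) * Real.log T / (2 * Real.pi)) = Real.log T * (s.im - s'.im) := by
    field_simp
  rw [e]
  unfold Run7.h911.PQ.pw
  have e1 : mult s = H370.mult riemannZeta s := rfl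
  have e2 : mult s' = H370.mult riemannZeta s' := rfl
  rw [e1, e2]
  split_ifs <;> ring

/-- Assume the Riemann hypothesis. Let `R` be a Lipschitz test function supported in `[-κ, κ]`, `κ < 1`. -/
theorem result (RH : RiemannHypothesis) (R : ℝ → ℝ) (κ : ℝ) (h0 : 0 < κ) (h1 : κ < 1) (hR : TestFn R κ)
    (hL : ∃ K : ℝ, ∀ x y : ℝ, |R x - R y| ≤ K * |x - y|) :
    -- the pairs with the first member of size in `(a, b)`
    (∀ a b : ℝ, a < b → ∀ ε : ℝ, 0 < ε → ∃ T₀ : ℝ, ∀ T : ℝ, T₀ ≤ T →
      |pairs R (SizeIn a b) Set.univ T - gauss a b * mont R * (N T (2 * T) : ℝ)| ≤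
        ε * (N T (2 * T) : ℝ)) ∧
    -- the pairs with the members of sizes in `(a, b)` and in `(c, d)`
    (∀ a b c d : ℝ, a < b → c < d → ∀ ε : ℝ, 0 < ε → ∃ T₀ : ℝ, ∀ T : ℝ, T₀ ≤ T →
      |pairs R (SizeIn a b) (SizeIn c d) T - gauss (max a c) (min b d) * mont R * (N T (2 * T) : ℝ)| ≤
        ε * (N T (2 * T) : ℝ)) := by
  classical
  have em : mont R = Run7.h911.PQ.mo R := rfl
  refine ⟨fun a b hab ε hε => ?_, fun a b c d hab hcd ε hε => ?_⟩
  · obtain ⟨T₀, hT₀, h⟩ := Run7.h911.PQ.toN (fun δ hδ => Run7.h911.PQ.law1 RH hR hL h0 h1 hab hδ) hε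
    refine ⟨T₀, fun T hT => ?_⟩
    have h2 := h T hT
    have e1 : pairs R (SizeIn a b) Set.univ T =
        ∑ s ∈ (H370.Zf riemannZeta T (2 * T)).filter (fun s => Run7.h911.PQ.NearO a b s.im),
          Run7.h911.PQ.Wt R T s := by
      rw [pairs_eq hR _ _ (by linarith), Finset.sum_filter]
      refine Finset.sum_congr rfl fun s _ => ?_
      by_cases c : Run7.h911.PQ.NearO a b s.im
      · rw [if_pos c]
        unfold Run7.h911.PQ.Wt
        refine Finset.sum_congr rfl fun s' _ => ?_
        have c' : s.im ∈ SizeIn a b := c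
        rw [if_pos ⟨c', Set.mem_univ _⟩]
      · rw [if_neg c]
        refine Finset.sum_eq_zero fun s' _ => ?_
        rw [if_neg]
        rintro ⟨c', -⟩
        exact c c'
    rw [e1, em]
    have e2 : gauss a b = Run7.h911.SZ.G01 a b := rfl
    rw [e2, mul_comm (Run7.h911.SZ.G01 a b)]
    exact h2
  · obtain ⟨T₀, hT₀, h⟩ := Run7.h911.PQ.toN (fun δ hδ => Run7.h911.PQ.law2 RH hR hL h0 h1 hab hcd hδ) hε
    refine ⟨T₀, fun T hT => ?_⟩
    have h2 := h T hT
    have e1 : pairs R (SizeIn a b) (SizeIn c d) T =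
        ∑ s ∈ H370.Zf riemannZeta T (2 * T), ∑ s' ∈ H370.Zf riemannZeta T (2 * T),
        (if Run7.h911.PQ.NearO a b s.im ∧ Run7.h911.PQ.NearO c d s'.im then Run7.h911.PQ.pw R T s s' else 0) :=
      pairs_eq hR _ _ (by linarith)
    rw [e1, em]
    have e2 : gauss (max a c) (min b d) = Run7.h911.SZ.G01 (max a c) (min b d) := rfl
    rw [e2, mul_comm (Run7.h911.SZ.G01 (max a c) (min b d))]
    exact h2

end Pool.Agent.Results.MP_f58427_nt.PairCorrelationAtEverySize
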